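import Pool.Agent.V1198.CP3

/-!
# Compensation functions on the unit ball and on the whole dual of `C(K)`
-/

set_option autoImplicit false

noncomputable section

open Filter Topology

namespace Pool.Agent.Results.MP_f97503_an.Compensation

open Pool.Agent.V1198.CP

section defs

variable {K : Type} [TopologicalSpace K] [CompactSpace K]

/-- `M(K) = C(K)*` with the weak* topology (Riesz representation theorem); `μ(K) = μ 1`. -/
abbrev MK (K : Type) [TopologicalSpace K] [CompactSpace K] : Type := WeakDual ℝ C(K, ℝ)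

/-- `μ⁺` on nonnegative functions `f`: the supremum of `μ(g)`, `0 ≤ g ≤ f`. -/
def posPart (μ : MK K) (f : C(K, ℝ)) : ℝ :=
  sSup {r | ∃ g : C(K, ℝ), 0 ≤ g ∧ g ≤ f ∧ r = μ g}

/-- `ν` is a compensation of `μ`. -/
def IsCompensation (μ ν : MK K) : Prop :=
  (0 < μ 1 ∧ (∀ f : C(K, ℝ), 0 ≤ f → 0 ≤ ν f ∧ ν f ≤ posPart μ f) ∧ ν 1 = μ 1) ∨
    (μ 1 ≤ 0 ∧ ν = 0)

/-- `M`-compensation functions. -/
def IsCompensationFunction (M : Set (MK K)) (ξ : M → MK K) : Prop :=
  Continuous ξ ∧ ∀ μ : M, IsCompensation μ.1 (ξ μ)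

/-- The closed unit ball of `M(K)`. -/
def ball (K : Type) [TopologicalSpace K] [CompactSpace K] : Set (MK K) :=
  {μ | ∀ f : C(K, ℝ), |μ f| ≤ ‖f‖}

end defs

/-- A compact space that admits a compensation function on the unit ball is metrizable. -/
theorem metrizable_of_ball (K : Type) [TopologicalSpace K] [CompactSpace K] [T2Space K]
    (hK : ∃ ξ : ball K → MK K, IsCompensationFunction (ball K) ξ) :
    TopologicalSpace.MetrizableSpace K := by
  obtain ⟨ξ, hc, hξ⟩ := hK
  obtain ⟨ψ, hψ⟩ := exists_sep (K := K) ξ hc (fun μ hμ => by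
    rcases hξ μ with ⟨-, h1, h2⟩ | ⟨h1, -⟩
    · exact ⟨fun f hf => (h1 f hf).1, fun f hf => (h1 f hf).2, h2⟩
    · exact absurd hμ (not_lt.2 h1))
  exact metrizable hψ

theorem comp_of_metrizable (K : Type) [TopologicalSpace K] [CompactSpace K]
    [TopologicalSpace.MetrizableSpace K] :
    ∃ ξ : ↥(Set.univ : Set (MK K)) → MK K, IsCompensationFunction Set.univ ξ := by
  rcases isEmpty_or_nonempty K with hK | hK
  · refine ⟨fun _ => 0, continuous_const, fun μ => Or.inr ⟨?_, rfl⟩⟩
    have h1 : (1 : C(K, ℝ)) = 0 := by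
      ext x
      exact isEmptyElim x
    rw [h1, map_zero]
  · let _ := TopologicalSpace.metrizableSpaceMetric K
    obtain ⟨ξ, h1, h2, h3, h4, h5⟩ := exists_comp (K := K)
    refine ⟨fun μ => ξ μ.1, h1.comp continuous_subtype_val, fun μ => ?_⟩
    rcases lt_or_ge 0 (μ.1 1) with h6 | h6
    · refine Or.inl ⟨h6, fun f hf => ⟨h2 _ f hf, h3 _ f hf⟩, ?_⟩
      rw [h4, max_eq_left h6.le]
    · refine Or.inr ⟨h6, ?_⟩
      refine DFunLike.ext _ _ fun f => ?_
      have h7 := h5 μ.1 f
      rw [max_eq_right h6, zero_mul] at h7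
      exact abs_nonpos_iff.1 h7

/-- Every compact space `K` that admits a `B_{M(K)}`-compensation function admits a compensation
function; in fact `K` is then metrizable. -/
theorem result (K : Type) [TopologicalSpace K] [CompactSpace K] [T2Space K]
    (hK : ∃ ξ : ball K → MK K, IsCompensationFunction (ball K) ξ) :
    (∃ ξ : ↥(Set.univ : Set (MK K)) → MK K, IsCompensationFunction Set.univ ξ) ∧
      TopologicalSpace.MetrizableSpace K := by
  have := metrizable_of_ball K hK
  exact ⟨comp_of_metrizable K, inferInstance⟩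

end Pool.Agent.Results.MP_f97503_an.Compensation
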